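import Pool.Agent.Helper2.EC_C.Goals

/-!
# MP_ecc237_nt, Part C, packet AT
-/

set_option autoImplicit false

open MeasureTheory Filter Topology Set

namespace ECC.PkAT

open EC237 ECC

/-- The packet AT. -/
theorem at_ (e2t : G_E2T) (k1 : G_K1) (mon : G_MON) : G_AT := by
  intro t ht
  have hπ := Real.pi_pos
  set q := Real.exp (-(2 * Real.pi / (3 * t))) with hq
  set p := Real.exp (-(2 * Real.pi * t)) with hp
  have hq0 : 0 < q := Real.exp_pos _
  have hp0 : 0 < p := Real.exp_pos _
  have hq1 : q < 1 := by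
    rw [hq, Real.exp_lt_one_iff]
    have : 0 < 2 * Real.pi / (3 * t) := by positivity
    linarith
  have hp1 : p < 1 := by
    rw [hp, Real.exp_lt_one_iff]
    have : 0 < 2 * Real.pi * t := by positivity
    linarith
  have hq3 : q ^ 3 = Real.exp (-(2 * Real.pi / t)) := by
    rw [hq, ← Real.exp_nat_mul]
    congr 1
    push_cast
    field_simp
  have hp3 : p ^ 3 = Real.exp (-(2 * Real.pi * (3 * t))) := by
    rw [hp, ← Real.exp_nat_mul]
    congr 1
    push_cast
    ring
  have e1 := e2t t ht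
  have e2 := e2t (3 * t) (by positivity)
  rw [← hq3] at e1
  rw [← hp3] at e2
  have k1q := k1 q (by rw [abs_of_pos hq0]; exact hq1)
  have k1p := k1 p (by rw [abs_of_pos hp0]; exact hp1)
  unfold PS at e1 e2
  rw [← hq, ← hp] at *
  have hsq : aS q ^ 2 = (Real.sqrt 3 * t * aS p) ^ 2 := by
    rw [mul_pow, mul_pow, Real.sq_sqrt (by norm_num), k1q, k1p]
    have h1 : 6 * (3 * t) / Real.pi = 3 * (6 * t / Real.pi) := by ring
    rw [h1] at e2
    nlinarith
  have ha : 1 ≤ aS q := mon.2 q ⟨hq0.le, hq1⟩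
  have hb : 1 ≤ aS p := mon.2 p ⟨hp0.le, hp1⟩
  exact (pow_left_inj₀ (by linarith) (by positivity) (two_ne_zero)).1 hsq

end ECC.PkAT
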